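import Mathlib

set_option autoImplicit false

namespace Pool.Agent.Helper23.QF

/-- the matrix of one partial quotient -/
def mat (n : ℕ) : Matrix (Fin 2) (Fin 2) ℤ := !![(n : ℤ), 1; 1, 0]

/-- the matrix of a word -/
def M (w : List ℕ) : Matrix (Fin 2) (Fin 2) ℤ := (w.map mat).prod

/-- the continuant of a word -/
def K (w : List ℕ) : ℤ := M w 0 0

/-- words in the two letters a, b -/
def Word (a b : ℕ) (w : List ℕ) : Prop := ∀ x ∈ w, x = a ∨ x = b

/-- the finite set of words of length n in the letters a, b -/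
def words (a b : ℕ) : ℕ → Finset (List ℕ)
  | 0 => {[]}
  | n + 1 => (words a b n).image (fun w => a :: w) ∪ (words a b n).image (fun w => b :: w)

/-- all partial quotients of x after the integer part are a or b -/
def InE (a b : ℕ) (x : ℝ) : Prop :=
  ∀ n : ℕ, (GenContFract.of x).partDens.get? n = some (a : ℝ) ∨
    (GenContFract.of x).partDens.get? n = some (b : ℝ)

/-- the field generated by the square root of d contains an irrational number all of whose
partial quotients are a or b -/
def Good (a b d : ℕ) : Prop :=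
  ∃ p q : ℚ, q ≠ 0 ∧ InE a b ((p : ℝ) + (q : ℝ) * Real.sqrt (d : ℝ))

/-- the palindromic period attached to a word u -/
def pal (a : ℕ) (u : List ℕ) : List ℕ := u ++ [a] ++ u.reverse ++ [a]

/-- the trace of the palindromic period -/
def tr (a : ℕ) (u : List ℕ) : ℤ := (M (pal a u)).trace

theorem M_nil : M [] = 1 := rfl

theorem M_cons (x : ℕ) (w : List ℕ) : M (x :: w) = mat x * M w := by
  simp [M]

theorem M_append (v w : List ℕ) : M (v ++ w) = M v * M w := by
  simp [M]

theorem M_singleton (x : ℕ) : M [x] = mat x := by simp [M]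

theorem mat_transpose (x : ℕ) : (mat x).transpose = mat x := by
  ext i j
  fin_cases i <;> fin_cases j <;> simp [mat]

theorem M_reverse (w : List ℕ) : M w.reverse = (M w).transpose := by
  induction w with
  | nil => simp [M]
  | cons x w ih =>
    rw [List.reverse_cons, M_append, ih, M_singleton, M_cons, Matrix.transpose_mul, mat_transpose]

theorem mat_det (x : ℕ) : (mat x).det = -1 := by
  simp [mat, Matrix.det_fin_two]

theorem M_det (w : List ℕ) : (M w).det = (-1) ^ w.length := by
  induction w with
  | nil => simp [M]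
  | cons x w ih => rw [M_cons, Matrix.det_mul, ih, mat_det, List.length_cons, pow_succ]; ring

theorem M_pal (a : ℕ) (u : List ℕ) : M (pal a u) = M u * mat a * (M u).transpose * mat a := by
  rw [pal, M_append, M_append, M_append, M_reverse, M_singleton]

/-- first factorisation: tr + 2 det -/
theorem tr_add (a : ℕ) (u : List ℕ) :
    tr a u + 2 * (M u).det = M u 0 0 * ((a : ℤ) ^ 2 * M u 0 0 + 2 * a * M u 0 1 + 2 * a * M u 1 0
      + 4 * M u 1 1) := by
  rw [tr, M_pal, Matrix.det_fin_two]
  simp [Matrix.trace_fin_two, Matrix.mul_apply, Fin.sum_univ_two, mat]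
  ring

/-- second factorisation: tr - 2 det -/
theorem tr_sub (a : ℕ) (u : List ℕ) :
    tr a u - 2 * (M u).det = ((a : ℤ) * M u 0 0 + 2 * M u 0 1) * (a * M u 0 0 + 2 * M u 1 0) := by
  rw [tr, M_pal, Matrix.det_fin_two]
  simp [Matrix.trace_fin_two, Matrix.mul_apply, Fin.sum_univ_two, mat]
  ring

/-- entries of the matrix of a word with positive letters -/
theorem M_entries (w : List ℕ) (hw : ∀ x ∈ w, 1 ≤ x) :
    1 ≤ M w 0 0 ∧ 0 ≤ M w 0 1 ∧ 0 ≤ M w 1 0 ∧ 0 ≤ M w 1 1 ∧
      M w 1 0 ≤ M w 0 0 ∧ M w 1 1 ≤ M w 0 1 + (if w = [] then 1 else 0) := by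
  induction w with
  | nil => simp [M]
  | cons x w ih =>
    obtain ⟨h1, h2, h3, h4, h5, h6⟩ := ih (fun y hy => hw y (List.mem_cons_of_mem _ hy))
    have hx : (1 : ℤ) ≤ x := by exact_mod_cast hw x List.mem_cons_self
    rw [M_cons]
    simp only [mat, Matrix.mul_apply, Fin.sum_univ_two, Matrix.of_apply, Matrix.cons_val',
      Matrix.cons_val_zero, Matrix.cons_val_one, Matrix.cons_val_fin_one, one_mul, zero_mul,
      add_zero, List.cons_ne_nil, if_false]
    refine ⟨by nlinarith, by nlinarith, by linarith, by linarith, by nlinarith, by nlinarith⟩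

end Pool.Agent.Helper23.QF
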