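import Pool.Agent.Helper23.QF.Defs

set_option autoImplicit false

open scoped ENNReal NNReal Matrix

namespace Pool.Agent.Helper23.QF

/-- Digits from a sequence of complete quotients. Proof: ⌊x i⌋ = u i and Int.fract (x i) = 1/x (i+1)
(0 < 1/x (i+1) < 1), so (Int.fract (x i))⁻¹ = x (i+1). By GenContFract.of_s_head and
GenContFract.of_s_succ, (of (x i)).s.get? n = some ⟨1, u (i+n+1)⟩, by induction on n for all i;
partDens = s.map Pair.b. -/
def GCFSEQ : Prop :=
  ∀ (x : ℕ → ℝ) (u : ℕ → ℕ), (∀ i, 1 < x i) → (∀ i, x i = u i + 1 / x (i + 1)) →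
    ∀ n : ℕ, (GenContFract.of (x 0)).partDens.get? n = some ((u (n + 1) : ℕ) : ℝ)

/-- Complete quotients from the digits. Proof: partDens.get? n = some .. for all n shows that no
fractional part vanishes; let y 0 = (Int.fract x)⁻¹, y (i+1) = (Int.fract (y i))⁻¹; by
GenContFract.of_s_head and of_s_succ, (of x).s.get? n = (of (y n)).s.head-type information gives
⌊y n⌋ = a or b (as reals some (a:ℝ) = some ((⌊y n⌋ : ℤ) : ℝ)), and Int.fract (y n) ≠ 0 because
otherwise the digit n+1 would be none; so y n = u n + 1 / y (n+1), and y n > 1 since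
0 < fract < 1. -/
def GCFINV : Prop :=
  ∀ (a b : ℕ) (x : ℝ), 0 < a → 0 < b → InE a b x →
    ∃ (y : ℕ → ℝ) (u : ℕ → ℕ), (∀ i, 1 < y i) ∧ (∀ i, u i = a ∨ u i = b) ∧
      x = ⌊x⌋ + 1 / y 0 ∧ ∀ i, y i = u i + 1 / y (i + 1)

/-- Purely periodic word gives an element of the field. Hypothesis GCFSEQ is available. Proof: let
(p q; r s) = M w, all entries ≥ 1 if the length is at least 2 (even and nonempty), det = 1,
t = p + s. x := ((p - s) + √(t² - 4)) / (2 r) satisfies r x² + (s - p) x - q = 0, i.e.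
x = (p x + q)/(r x + s), and x > 1: the polynomial at 1 is r + s - p - q ≤ 0, < 0 or so since
p ≥ r, q ≥ s with one of them strict (use r + s < p + q). Define y_j for j = len w down to 0 by
y_(len) = x, y_j = w_j + 1 / y_(j+1); by induction on suffixes y_j = (M (w.drop j) acting on x),
so y_0 = x and all y_j > 1 for j < len because w_j ≥ 1 and y_(j+1) > 0. The periodic sequences
x i = y_(i mod len), u i = w_(i mod len) satisfy the hypotheses of GCFSEQ. Finally
√(t² - 4) = f √d, so x = (p-s)/(2r) + (f/(2r)) √d. -/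
def GFIELD : Prop :=
  ∀ (a b : ℕ) (w : List ℕ) (d f : ℕ), 0 < a → 0 < b → Word a b w → w ≠ [] → Even w.length →
    0 < f → (d : ℤ) * f ^ 2 = (M w).trace ^ 2 - 4 → Good a b d

/-- Multiplicity of a trace. Proof: the matrix of a word with letters ≥ 1 determines the word
(freeness of the semigroup: compare first letters and use 0 ≤ M w' 1 0 ≤ M w' 0 0, see M_entries,
with equality M w' 1 0 = M w' 0 0 only for w' = [1]). By tr_add and tr_sub, with σ = det = ±1,
M u 0 0 is a positive divisor of t + 2σ and a M u 0 0 + 2 M u 0 1 is a positive divisor of t - 2σ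
(both t ± 2 are positive as t > 2), and these two numbers together with σ and t determine
M u 0 1, then M u 1 0 (second factor of tr_sub), then M u 1 1 (second factor of tr_add). So S injects
into {±1} × divisors × divisors. -/
def GMULT : Prop :=
  ∀ (a b : ℕ) (t : ℕ) (S : Finset (List ℕ)), 0 < a → 0 < b → 2 < t →
    (∀ u ∈ S, Word a b u ∧ tr a u = t) →
    S.card ≤ 2 * ((t + 2).divisors.card * (t - 2).divisors.card)

/-- Traces in one field grow geometrically. Proof: if t² = d f² + 4, t'² = d f'² + 4, 3 ≤ t < t',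
then f < f', τ := (t t' - d f f')/2 is an integer (t ≡ d f, t' ≡ d f' mod 2), g := (f' t - f t')/2 is an
integer (same parity argument: f' t ≡ d f f' ≡ f t' mod 2) and g > 0, τ² - d g² = 4,
τ > 0 so τ ≥ 3, and 2 t' = t τ + d f g ≥ t τ ≥ 3 t. (Identities: τ t + d g f = 2 t', etc.) So the
elements of S in increasing order satisfy t_(i+1) ≥ (3/2) t_i, t_1 ≥ 3 ≥ (3/2), hence
(3/2)^card ≤ max ≤ T (induction on the cardinality, removing the maximum; S = ∅ uses 1 ≤ T). -/
def GGAP : Prop :=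
  ∀ (d T : ℕ) (S : Finset ℕ), 1 ≤ T →
    (∀ t ∈ S, 3 ≤ t ∧ t ≤ T ∧ ∃ f : ℕ, t ^ 2 = d * f ^ 2 + 4) → ((3 : ℝ) / 2) ^ S.card ≤ T

/-- Counting words with bounded continuant. Proof: K (v ++ w) ≤ 2 K v K w (M (v ++ w) 0 0 =
M v 0 0 M w 0 0 + M v 0 1 M w 1 0, with M v 0 1 ≤ M v 0 0 for positive letters (M_entries for the reversed
word) and M w 1 0 ≤ M w 0 0). n ≥ 1 necessarily (for n = 0 the sum is 2^(-2s) < 1). Let N R be the
largest cardinality of finite sets of words with K ≤ R (the set is finite: K u ≥ length-type bound,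
the length of u is at most 2 log_2 R + 2 since K doubles every two letters). Claim: N R ≥ c R^(2s)
with c = (2 max K)^(-2s) where the maximum is over the words of length n. For
1 ≤ R < 2 max K the empty word suffices. For R ≥ 2 max K the sets {v ++ u : K u ≤ R/(2 K v)} for
v of length n are disjoint, so N R ≥ ∑_v N (R / (2 K v)) ≥ c ∑_v (R/(2 K v))^(2s) ≥ c R^(2s);
induction on k for R ≤ 2^k (as 2 K v ≥ 2), or any well-founded variant. -/
def GCOUNT : Prop :=
  ∀ (a b n : ℕ) (s : ℝ), 0 < a → 0 < b → a ≠ b → 0 < s →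
    1 ≤ ∑ w ∈ words a b n, (2 * (K w : ℝ)) ^ (-(2 * s)) →
    ∃ c : ℝ, 0 < c ∧ ∀ R : ℝ, 1 ≤ R → ∃ S : Finset (List ℕ),
      (∀ u ∈ S, Word a b u ∧ (K u : ℝ) ≤ R) ∧ c * R ^ (2 * s) ≤ (S.card : ℝ)

/-- The same count in a residue class of matrices. Proof: let G be the finite set of reductions
modulo m. For every word u the word v u := u0 ++ (u repeated k - 1 times), where k ≥ 1 satisfies
(M u mod m)^k = 1 (the reduction of M u is a unit: det = ±1, and the unit group is finite; take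
k = the order of the unit group), has M (v ++ u) ≡ M u0 mod m; v only needs to be chosen once for each
residue class h of M u (choose a representative word). Take S for R from GCOUNT; some class contains at least
S.card / |G| words (or map u ↦ (v_[u] ++ u), which is injective on each class, so the image has at least
S.card / |G| elements) and K (v ++ u) ≤ 2 K v K u ≤ C R. Replace R by R / C; for R < C use c small
and S = {u0'} or the empty set (c R^(2s) ≤ card is needed: for 1 ≤ R < C: if K u0 ≤ R use... it is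
allowed to prove the statement only for R ≥ R0, see the formulation). -/
def GPIG : Prop :=
  ∀ (a b : ℕ) (s : ℝ), 0 < a → 0 < b → 0 < s →
    (∃ c : ℝ, 0 < c ∧ ∀ R : ℝ, 1 ≤ R → ∃ S : Finset (List ℕ),
      (∀ u ∈ S, Word a b u ∧ (K u : ℝ) ≤ R) ∧ c * R ^ (2 * s) ≤ (S.card : ℝ)) →
    ∀ (m : ℕ) (u0 : List ℕ), 0 < m → Word a b u0 →
      ∃ c : ℝ, 0 < c ∧ ∃ R0 : ℝ, 1 ≤ R0 ∧ ∀ R : ℝ, R0 ≤ R → ∃ S : Finset (List ℕ),
        (∀ u ∈ S, Word a b u ∧ (K u : ℝ) ≤ R ∧ ∀ i j, (m : ℤ) ∣ M u i j - M u0 i j) ∧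
        c * R ^ (2 * s) ≤ (S.card : ℝ)

/-- A word with prescribed reduction. Proof: let A, B be the reductions of mat a, mat b in the finite
group GL₂(ZMod m) (units of the matrix ring, det = -1). The submonoid generated by A, B is a
subgroup (finite). It contains A⁻¹, B⁻¹ A = (1 0; a-b 1), A B⁻¹ = (1 a-b; 0 1) and their integer
powers (1 0; (a-b) j 1), (1 (a-b) i; 0 1). -/
def GWORDEX : Prop :=
  ∀ (a b m : ℕ) (i j : ℤ), 0 < m →
    ∃ u0 : List ℕ, Word a b u0 ∧ ∀ k l,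
      (m : ℤ) ∣ M u0 k l - (!![0, 1; 1, -(a : ℤ)] * !![1, 0; ((a : ℤ) - b) * j, 1]
        * !![1, ((a : ℤ) - b) * i; 0, 1] : Matrix (Fin 2) (Fin 2) ℤ) k l

/-- Local behaviour, from GWORDEX. Proof: N = a - b ≠ 0, j = 16 m D0, i = 4 m D0 (D0 + a²),
y = N j, x = N i, U = !![0,1;1,-a] * !![1,0;y,1] * !![1,x;0,1], t0 = trace (U * mat a * Uᵀ * mat a).
Then t0 - 2 = y (4 x - 2 a x y - a² y) = y² D0 (1 - 8 m a N (D0 + a²)) and
t0 + 2 = (2 + 2 x y + a y)(2 - a y) = 4 (1 + 64 N² m² D0² (D0 + a²) + 8 a N m D0)(1 - 8 a N m D0)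
(both by ring), so D0 (t0² - 4) = (2 y D0)² (1 + 8 m k1), nonzero. Put
m' = 8 m |t0² - 4| and take u0 from GWORDEX modulo m'. If M u ≡ M u0 mod m' then tr a u ≡ t0 mod m'
(the trace of M u * mat a * (M u)ᵀ * mat a is a polynomial in the entries), so
(tr a u)² - 4 = (t0² - 4)(1 + 8 m k2). -/
def GLOCAL : Prop :=
  ∀ (a b m : ℕ) (D0 : ℤ), 0 < a → 0 < b → a ≠ b → 0 < m → D0 ≠ 0 →
    ∃ (m' : ℕ) (u0 : List ℕ), 0 < m' ∧ Word a b u0 ∧
      ∀ u : List ℕ, Word a b u → (∀ i j, (m' : ℤ) ∣ M u i j - M u0 i j) →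
        ∃ z k : ℤ, z ≠ 0 ∧ D0 * ((tr a u) ^ 2 - 4) = z ^ 2 * (1 + 8 * m * k)

/-- Squares in ℚ_p. Proof: Hensel (hensels_lemma in Mathlib) for X² - (1 + 8 p k) over ℤ_p at 1:
‖1 - (1 + 8pk)‖ = ‖8 p k‖ < ‖2‖² ; for p = 2 this is |16 k| ≤ 2^(-4) < 1/4. -/
def GPADIC : Prop :=
  ∀ (p : ℕ) [Fact p.Prime] (k : ℤ), IsSquare (((1 + 8 * p * k : ℤ)) : ℚ_[p])

/-- From the dimension to the sum, using GCFINV. Proof: suppose the sum S_n over words of length n is < 1
for every n, so ∑_w K(w)^(-2s) < 4^s. For an integer j let E_j = {x | InE a b x, ⌊x⌋ = j}. If x ∈ E_j,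
let y, u be as in GCFINV and w = [u 0, .., u (n-1)]; then x = j + (r y n + q')/(...) : precisely
y 0 = (M w 0 0 * y n + M w 0 1)/(M w 1 0 * y n + M w 1 1), so
|x - (j + M w 1 0 / M w 0 0)| = 1/(K w (K w * y n + M w 0 1)) ≤ 1 / (K w)². So E_j is covered
by the closed balls of radius (K w)^(-2), w ∈ words a b n, whose diameters tend to 0 uniformly
(K w ≥ fib (n+1), or K w ≥ 2^(n/2)). By MeasureTheory.Measure.hausdorffMeasure_le_liminf_sum,
μH[s] E_j ≤ liminf ∑_w (2 K w ^(-2))^s ≤ 2^s 4^s < ∞, so dimH E_j ≤ s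
(dimH_le_of_hausdorffMeasure_ne_top), dimH_iUnion gives dimH ≤ s, contradiction. (For s = 0
the sum for n = 0 is 1.) -/
def GDIM : Prop :=
  ∀ (a b : ℕ) (s : ℝ≥0), 0 < a → 0 < b → (s : ℝ≥0∞) < dimH {x : ℝ | InE a b x} →
    ∃ n : ℕ, 1 ≤ ∑ w ∈ words a b n, (2 * (K w : ℝ)) ^ (-(2 * (s : ℝ)))

/-- The final statement, from all the above and Pool.Agent.Helper92.Field.divisor_bound (module
Pool.Agent.Helper92.Field.Divisor). Proof: pick s' with s < s' and (s' : ℝ≥0∞) < dimH E, n from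
GDIM, the count from GCOUNT, m' and u0 from GLOCAL, the class count from GPIG. All u in the class
with K u ≤ R have 3 ≤ t := tr a u ≤ C1 R², C1 = (a+2)² + 2 (tr_add, all entries ≤ K u; lower bound from
tr_sub/tr_add, e.g. M (pal a u) has even length ≥ 2 and all entries ≥ 1, trace ≥ 3). Given X let
T = Nat.sqrt X and R = (T/C1)^(1/2), so t ≤ T. Write t² - 4 = d f² with d squarefree
(Nat.sq_mul_squarefree), d ≥ 2 (t² - 4 is not a square for t ≥ 3), f > 0, d ≤ t² ≤ X. Then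
Good a b d (GFIELD, word pal a u) and for a prime p ∣ m: D0 d f² = z² (1 + 8 m k), so D0 d is a square in
ℚ_[p] (GPADIC with k * (m/p)). The number of u for a given t is ≤ 2 τ(t+2) τ(t-2) ≤ C2 T^(2ε)
(GMULT, divisor bound), the number of t for a given d is ≤ log T / log (3/2) (GGAP). So the number of d is
≥ c R^(2s') / (C2 T^(2ε) (log T/log(3/2))) ≥ X^(s/2) for X large, with ε = (s'-s)/8:
R^(2s') ≍ T^(s') ≍ X^(s'/2). -/
def GFINAL : Prop :=
  ∀ (a b : ℕ) (s : ℝ≥0) (m : ℕ) (D0 : ℤ), 0 < a → 0 < b → a ≠ b → 0 < m → D0 ≠ 0 →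
    (s : ℝ≥0∞) < dimH {x : ℝ | InE a b x} →
    ∃ X0 : ℕ, ∀ X : ℕ, X0 ≤ X →
      (X : ℝ) ^ ((s : ℝ) / 2) ≤
        (Set.ncard {d : ℕ | d ≤ X ∧ 2 ≤ d ∧ Squarefree d ∧ Good a b d ∧
          ∀ p : ℕ, ∀ _ : Fact p.Prime, p ∣ m → IsSquare (((D0 * d : ℤ)) : ℚ_[p])} : ℝ)

end Pool.Agent.Helper23.QF
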